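import Pool.Agent.H91.MM.Ch
import Pool.Agent.H44.RC.CHB

/-!
# THEOREM M, chart part: from the planar kernel to the sphere

`fam1`: `φ` is a Moebius conjugacy of `F` to `rat a b`, which fixes infinity; `C` are the images of points of `S` (critical points of `F` in the Julia set), their values are finite. If no system of the plane is nice (kernel `ker`), then no small system on the sphere is contracting.
-/

set_option autoImplicit false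

open Filter Topology Polynomial Metric Set

namespace Pool.Agent.H91.MM

open Pool.Agent.H44.Fatou (rat rat_continuous)
open Pool.Agent.H32.BT (IsCrit)
open Pool.Agent.H35.EX (chord chord_comm)
open Pool.Agent.H91.ATT (fp fp_coe Mb)
open Pool.Agent.H47.MM (Un Me Hyp Sys Nice)
open Pool.Agent.H56.MM (HolAt Unv Vp CSc)

/-- small chordal discs about a point with finite image are small in the chart -/
theorem ch_small {φ : OnePoint ℂ ≃ₜ OnePoint ℂ} {p : OnePoint ℂ} {z : ℂ} (hp : φ p = (z : OnePoint ℂ)) {r : ℝ} (hr : 0 < r) :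
    ∃ ε : ℝ, 0 < ε ∧ ∀ x, chord x p < ε → φ x ≠ OnePoint.infty ∧ ‖fp (φ x) - z‖ < r := by
  have h1 : φ ⁻¹' ((fun w : ℂ => (w : OnePoint ℂ)) '' ball z r) ∈ 𝓝 p := by
    refine ((OnePoint.isOpenEmbedding_coe.isOpenMap _ isOpen_ball).preimage φ.continuous).mem_nhds ?_
    exact ⟨z, mem_ball_self hr, hp.symm⟩
  obtain ⟨ε, hε, h2⟩ := Pool.Agent.H44.RC.ch_nhds h1
  refine ⟨ε, hε, fun x hx => ?_⟩
  have h3 : x ∈ φ ⁻¹' ((fun w : ℂ => (w : OnePoint ℂ)) '' ball z r) := by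
    apply h2
    show chord p x < ε
    rwa [chord_comm]
  obtain ⟨w, hw, hwx⟩ := h3
  have hwx' : (w : OnePoint ℂ) = φ x := hwx
  rw [← hwx']
  refine ⟨OnePoint.coe_ne_infty w, ?_⟩
  rw [fp_coe, ← dist_eq_norm]
  exact hw

theorem fin_min {α : Type*} {C : Set α} (hC : C.Finite) {P : α → ℝ → Prop} (h1 : ∀ c ∈ C, ∃ ε : ℝ, 0 < ε ∧ P c ε)
    (h2 : ∀ c, ∀ ε ε' : ℝ, ε' ≤ ε → P c ε → P c ε') : ∃ ε : ℝ, 0 < ε ∧ ∀ c ∈ C, P c ε := by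
  induction C, hC using Set.Finite.induction_on with
  | empty => exact ⟨1, one_pos, fun c hc => absurd hc (notMem_empty c)⟩
  | @insert a s _ _ ih =>
    obtain ⟨ε1, he1, h3⟩ := ih fun c hc => h1 c (mem_insert_of_mem _ hc)
    obtain ⟨ε2, he2, h4⟩ := h1 a (mem_insert _ _)
    refine ⟨min ε1 ε2, lt_min he1 he2, fun c hc => ?_⟩
    rcases mem_insert_iff.1 hc with hc | hc
    · rw [hc]
      exact h2 _ _ _ (min_le_right _ _) h4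
    · exact h2 _ _ _ (min_le_left _ _) (h3 c hc)

theorem fin_max {α : Type*} {C : Set α} (hC : C.Finite) {P : α → ℕ → Prop} (h1 : ∀ c ∈ C, ∃ L : ℕ, P c L)
    (h2 : ∀ c, ∀ L L' : ℕ, L ≤ L' → P c L → P c L') : ∃ L : ℕ, ∀ c ∈ C, P c L := by
  induction C, hC using Set.Finite.induction_on with
  | empty => exact ⟨0, fun c hc => absurd hc (notMem_empty c)⟩
  | @insert a s _ _ ih =>
    obtain ⟨L1, h3⟩ := ih fun c hc => h1 c (mem_insert_of_mem _ hc)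
    obtain ⟨L2, h4⟩ := h1 a (mem_insert _ _)
    refine ⟨max L1 L2, fun c hc => ?_⟩
    rcases mem_insert_iff.1 hc with hc | hc
    · rw [hc]
      exact h2 _ _ _ (le_max_right _ _) h4
    · exact h2 _ _ _ (le_max_left _ _) (h3 c hc)

theorem fam1 {a b : Polynomial ℂ} {C : Set ℂ} (h : Hyp a b C) {F : OnePoint ℂ → OnePoint ℂ} {φ : OnePoint ℂ ≃ₜ OnePoint ℂ}
    (hφ : Mb φ) (conj : ∀ x, rat a b (φ x) = φ (F x)) {S : Set (OnePoint ℂ)} (hC : ∀ c ∈ C, φ.symm (c : OnePoint ℂ) ∈ S)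
    (hfin : ∀ c ∈ C, rat a b (c : OnePoint ℂ) ≠ OnePoint.infty)
    (hker : ∀ (L : ℕ) (k : ℝ), k < 1 → ∃ ε : ℝ, 0 < ε ∧ ∀ (g ψ : ℂ → ℂ → ℂ) (l : ℂ → ℕ), Sys a b C L ε g ψ l →
      ¬ Nice a b C g ψ k) {k : ℝ} (hk : k < 1) :
    ∃ ε : ℝ, 0 < ε ∧ ∀ Φ : OnePoint ℂ → ℂ → OnePoint ℂ,
      (∀ c ∈ S, Unv (Φ c) ∧ Φ c 0 = F c ∧ ∀ u ∈ ball (0 : ℂ) 1, chord (Φ c u) (F c) < ε) → ¬ CSc F S k Φ := by
  have hf : Continuous (rat a b) := rat_continuous h.cop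
  have h0 : (0 : ℂ) ∈ ball (0 : ℂ) 1 := mem_ball_self one_pos
  have hd1 : 1 ≤ max a.natDegree b.natDegree := le_trans one_le_two h.deg
  have hval : ∀ c ∈ C, rat a b (c : OnePoint ℂ) = ((fp (rat a b (c : OnePoint ℂ)) : ℂ) : OnePoint ℂ) := fun c hc =>
    (coe_fp (hfin c hc)).symm
  -- the degrees
  obtain ⟨L, hL⟩ := fin_max h.fin (P := fun c L => ∀ ε : ℝ, 0 < ε → ∃ r : ℝ, 0 < r ∧
      ∀ g : ℂ → ℂ, Un g → g 0 = fp (rat a b (c : OnePoint ℂ)) → (∀ w ∈ ball (0 : ℂ) 1, ‖g w - fp (rat a b (c : OnePoint ℂ))‖ < r) →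
        ∃ (ψ : ℂ → ℂ) (l : ℕ), 2 ≤ l ∧ l ≤ L ∧ Un ψ ∧
        ψ 0 = c ∧ ∀ w ∈ ball (0 : ℂ) 1, ‖ψ w - c‖ < ε ∧ rat a b ((ψ w : ℂ) : OnePoint ℂ) = ((g (w ^ l) : ℂ) : OnePoint ℂ))
    (fun c hc => psi_ex h.cop hd1 h.inf (h.crt c hc) (hval c hc)) (fun c L L' hLL hP ε hε => by
      obtain ⟨r, hr, h1⟩ := hP ε hε
      refine ⟨r, hr, fun g hg hg0 hgr => ?_⟩
      obtain ⟨ψ, l, h2, h3, h4⟩ := h1 g hg hg0 hgr
      exact ⟨ψ, l, h2, h3.trans hLL, h4⟩)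
  obtain ⟨ε0, hε0, hker⟩ := hker L k hk
  -- the radii
  obtain ⟨ε, hε, hε2⟩ := fin_min h.fin (P := fun c ε => ∀ g : ℂ → ℂ, Un g → g 0 = fp (rat a b (c : OnePoint ℂ)) →
      (∀ w ∈ ball (0 : ℂ) 1, chord (φ.symm ((g w : ℂ) : OnePoint ℂ)) (F (φ.symm (c : OnePoint ℂ))) < ε) →
      (∀ w ∈ ball (0 : ℂ) 1, ‖g w - g 0‖ < ε0) ∧
        ∃ (ψ : ℂ → ℂ) (l : ℕ), 2 ≤ l ∧ l ≤ L ∧ Un ψ ∧
        ψ 0 = c ∧ ∀ w ∈ ball (0 : ℂ) 1, ‖ψ w - c‖ < ε0 ∧ rat a b ((ψ w : ℂ) : OnePoint ℂ) = ((g (w ^ l) : ℂ) : OnePoint ℂ))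
    (fun c hc => by
      obtain ⟨r, hr, h1⟩ := hL c hc ε0 hε0
      have h2 : φ (F (φ.symm (c : OnePoint ℂ))) = ((fp (rat a b (c : OnePoint ℂ)) : ℂ) : OnePoint ℂ) := by
        rw [← conj, φ.apply_symm_apply]
        exact hval c hc
      obtain ⟨ε, hε, h3⟩ := ch_small h2 (lt_min hr hε0)
      refine ⟨ε, hε, fun g hg hg0 hgc => ?_⟩
      have h4 : ∀ w ∈ ball (0 : ℂ) 1, ‖g w - fp (rat a b (c : OnePoint ℂ))‖ < min r ε0 := by
        intro w hw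
        have h5 := (h3 _ (hgc w hw)).2
        rwa [φ.apply_symm_apply, fp_coe] at h5
      exact ⟨fun w hw => by rw [hg0]; exact (h4 w hw).trans_le (min_le_right _ _),
        h1 g hg hg0 fun w hw => (h4 w hw).trans_le (min_le_left _ _)⟩)
    (fun c ε ε' hεε hP g hg hg0 hgc => hP g hg hg0 fun w hw => (hgc w hw).trans_le hεε)
  obtain ⟨ε', hε', hε2'⟩ := fin_min h.fin (P := fun c ε => ∀ x, chord x (F (φ.symm (c : OnePoint ℂ))) < ε → φ x ≠ OnePoint.infty)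
    (fun c hc => by
      have h2 : φ (F (φ.symm (c : OnePoint ℂ))) = ((fp (rat a b (c : OnePoint ℂ)) : ℂ) : OnePoint ℂ) := by
        rw [← conj, φ.apply_symm_apply]
        exact hval c hc
      obtain ⟨ε, hε, h3⟩ := ch_small h2 one_pos
      exact ⟨ε, hε, fun x hx => (h3 x hx).1⟩)
    (fun c ε ε' hεε hP x hx => hP x (hx.trans_le hεε))
  refine ⟨min ε ε', lt_min hε hε', fun Φ hΦ hcs => ?_⟩
  -- the system in the chart
  obtain ⟨g, hg⟩ : ∃ g : ℂ → ℂ → ℂ, g = fun (c w : ℂ) => fp (φ (Φ (φ.symm (c : OnePoint ℂ)) w)) := ⟨_, rfl⟩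
  have hgf : ∀ c ∈ C, ∀ w ∈ ball (0 : ℂ) 1, φ (Φ (φ.symm (c : OnePoint ℂ)) w) ≠ OnePoint.infty := by
    intro c hc w hw
    exact hε2' c hc _ (((hΦ _ (hC c hc)).2.2 w hw).trans_le (min_le_right _ _))
  have hgφ : ∀ c ∈ C, ∀ w ∈ ball (0 : ℂ) 1, φ (Φ (φ.symm (c : OnePoint ℂ)) w) = ((g c w : ℂ) : OnePoint ℂ) := by
    intro c hc w hw
    rw [hg]
    exact (coe_fp (hgf c hc w hw)).symm
  have hgU : ∀ c ∈ C, Un (g c) := by
    intro c hc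
    rw [hg]
    exact unv_ch hφ (hΦ _ (hC c hc)).1 (hgf c hc)
  have hg0 : ∀ c ∈ C, g c 0 = fp (rat a b (c : OnePoint ℂ)) := by
    intro c hc
    have h1 := hgφ c hc 0 h0
    rw [(hΦ _ (hC c hc)).2.1, ← conj, φ.apply_symm_apply] at h1
    rw [h1, fp_coe]
  have hP : ∀ c ∈ C, (∀ w ∈ ball (0 : ℂ) 1, ‖g c w - g c 0‖ < ε0) ∧
        ∃ (ψ : ℂ → ℂ) (l : ℕ), 2 ≤ l ∧ l ≤ L ∧ Un ψ ∧
        ψ 0 = c ∧ ∀ w ∈ ball (0 : ℂ) 1, ‖ψ w - c‖ < ε0 ∧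
          rat a b ((ψ w : ℂ) : OnePoint ℂ) = ((g c (w ^ l) : ℂ) : OnePoint ℂ) := by
    intro c hc
    refine hε2 c hc (g c) (hgU c hc) (hg0 c hc) fun w hw => ?_
    rw [← hgφ c hc w hw, φ.symm_apply_apply]
    exact ((hΦ _ (hC c hc)).2.2 w hw).trans_le (min_le_left _ _)
  choose! hP1 ψ l hl2 hlL hψU hψ0 hψ using hP
  have hsys : Sys a b C L ε0 g ψ l := ⟨hgU, hP1, hψU, hψ0, fun c hc w hw => (hψ c hc w hw).1, hl2, hlL,
    fun c hc w hw => (hψ c hc w hw).2⟩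
  refine hker g ψ l hsys fun c hc b' hb' n G hG hGn hGb w hw => ?_
  -- the pull back on the sphere
  have hV := vp_ch hf conj (le_trans one_le_two (hl2 c hc)) (hgU c hc) (hψU c hc) (hgφ c hc)
    (fun w hw => (hψ c hc w hw).2) (c := φ.symm (c : OnePoint ℂ)) (by rw [φ.apply_symm_apply, hψ0 c hc])
  have hit : ∀ (m : ℕ) (x : OnePoint ℂ), (rat a b)^[m] (φ x) = φ (F^[m] x) := by
    intro m x
    induction m with
    | zero => rfl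
    | succ m ih => rw [Function.iterate_succ_apply', Function.iterate_succ_apply', ih, conj]
  have hGs : ∀ w ∈ ball (0 : ℂ) 1, F^[n] (φ.symm ((G w : ℂ) : OnePoint ℂ)) = φ.symm ((ψ c w : ℂ) : OnePoint ℂ) := by
    intro w hw
    apply φ.injective
    rw [← hit, φ.apply_symm_apply, φ.apply_symm_apply, hGn w hw]
  obtain ⟨Z, hZ⟩ : ∃ Z, Z = (fun w : ℂ => φ.symm ((G w : ℂ) : OnePoint ℂ)) '' ball 0 1 := ⟨_, rfl⟩
  have hZo : IsOpen Z := by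
    have h1 : Z = φ ⁻¹' ((fun z : ℂ => (z : OnePoint ℂ)) '' (G '' ball 0 1)) := by
      rw [hZ]
      ext x
      constructor
      · rintro ⟨w, hw, rfl⟩
        refine ⟨G w, ⟨w, hw, rfl⟩, ?_⟩
        exact (φ.apply_symm_apply _).symm
      · rintro ⟨_, ⟨w, hw, rfl⟩, hx⟩
        refine ⟨w, hw, ?_⟩
        show φ.symm ((G w : ℂ) : OnePoint ℂ) = x
        rw [φ.symm_apply_eq]
        exact hx
    rw [h1]
    exact (OnePoint.isOpenEmbedding_coe.isOpenMap _ (un_open hG (Subset.refl _) isOpen_ball)).preimage φ.continuous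
  have hFZ : F (φ.symm (b' : OnePoint ℂ)) ∈ Z := by
    obtain ⟨w1, hw1, h1⟩ := hGb
    rw [hZ]
    refine ⟨w1, hw1, ?_⟩
    show φ.symm ((G w1 : ℂ) : OnePoint ℂ) = _
    rw [φ.symm_apply_eq, ← conj, φ.apply_symm_apply]
    exact h1.symm
  have hZi : InjOn F^[n] Z := by
    rw [hZ]
    rintro _ ⟨w1, hw1, rfl⟩ _ ⟨w2, hw2, rfl⟩ heq
    have h1 : φ.symm ((ψ c w1 : ℂ) : OnePoint ℂ) = φ.symm ((ψ c w2 : ℂ) : OnePoint ℂ) := by
      rw [← hGs w1 hw1, ← hGs w2 hw2]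
      exact heq
    rw [(hψU c hc).2 hw1 hw2 (OnePoint.coe_injective (φ.symm.injective h1))]
  have hZe : F^[n] '' Z = Vp F (Φ (φ.symm (c : OnePoint ℂ))) (φ.symm (c : OnePoint ℂ)) := by
    apply φ.injective.image_injective
    rw [hV, hZ]
    ext y
    constructor
    · rintro ⟨_, ⟨_, ⟨w1, hw1, rfl⟩, rfl⟩, rfl⟩
      refine ⟨w1, hw1, ?_⟩
      show ((ψ c w1 : ℂ) : OnePoint ℂ) = φ (F^[n] (φ.symm ((G w1 : ℂ) : OnePoint ℂ)))
      rw [hGs w1 hw1, φ.apply_symm_apply]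
    · rintro ⟨w1, hw1, rfl⟩
      refine ⟨_, ⟨_, ⟨w1, hw1, rfl⟩, rfl⟩, ?_⟩
      show φ (F^[n] (φ.symm ((G w1 : ℂ) : OnePoint ℂ))) = ((ψ c w1 : ℂ) : OnePoint ℂ)
      rw [hGs w1 hw1, φ.apply_symm_apply]
  have h2 := hcs _ (hC b' hb') _ (hC c hc) n Z hZo hFZ hZi hZe
  have h3 : φ.symm ((G w : ℂ) : OnePoint ℂ) ∈ Z := by
    rw [hZ]
    exact ⟨w, hw, rfl⟩
  obtain ⟨u, hu, h4⟩ := h2 h3
  rw [mem_ball_zero_iff] at hu
  refine ⟨u, hu, ?_⟩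
  have h5 := hgφ b' hb' u (mem_ball_zero_iff.2 (hu.trans hk))
  rw [h4, φ.apply_symm_apply] at h5
  exact OnePoint.coe_injective h5

end Pool.Agent.H91.MM
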