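import Pool.Agent.H91.MM.Fam1

/-!
# THEOREM M, MN, chart part: systems

`sys_ch`: small univalent maps into the sphere at the values of the critical points give a system in the chart (first half of `fam1`).
-/

set_option autoImplicit false

open Filter Topology Polynomial Metric Set

namespace Pool.Agent.H91.MM

open Pool.Agent.H44.Fatou (rat rat_continuous)
open Pool.Agent.H32.BT (IsCrit)
open Pool.Agent.H35.EX (chord chord_comm)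
open Pool.Agent.H91.ATT (fp fp_coe Mb)
open Pool.Agent.H47.MM (Un Me Hyp Sys Nice)
open Pool.Agent.H56.MM (HolAt Unv Vp CSc)

theorem sys_ch {a b : Polynomial ℂ} {C : Set ℂ} (h : Hyp a b C) {F : OnePoint ℂ → OnePoint ℂ} {φ : OnePoint ℂ ≃ₜ OnePoint ℂ}
    (hφ : Mb φ) (conj : ∀ x, rat a b (φ x) = φ (F x)) {S : Set (OnePoint ℂ)} (hC : ∀ c ∈ C, φ.symm (c : OnePoint ℂ) ∈ S)
    (hfin : ∀ c ∈ C, rat a b (c : OnePoint ℂ) ≠ OnePoint.infty) :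
    ∃ L : ℕ, ∀ ε0 : ℝ, 0 < ε0 → ∃ ε : ℝ, 0 < ε ∧ ∀ Φ : OnePoint ℂ → ℂ → OnePoint ℂ,
      (∀ c ∈ S, Unv (Φ c) ∧ Φ c 0 = F c ∧ ∀ u ∈ ball (0 : ℂ) 1, chord (Φ c u) (F c) < ε) →
      ∃ (g ψ : ℂ → ℂ → ℂ) (l : ℂ → ℕ), Sys a b C L ε0 g ψ l ∧
        (∀ c ∈ C, ∀ w ∈ ball (0 : ℂ) 1, φ (Φ (φ.symm (c : OnePoint ℂ)) w) = ((g c w : ℂ) : OnePoint ℂ)) ∧
        ∀ c ∈ C, φ '' Vp F (Φ (φ.symm (c : OnePoint ℂ))) (φ.symm (c : OnePoint ℂ)) =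
          (fun w : ℂ => ((ψ c w : ℂ) : OnePoint ℂ)) '' ball 0 1 := by
  have hf : Continuous (rat a b) := rat_continuous h.cop
  have h0 : (0 : ℂ) ∈ ball (0 : ℂ) 1 := mem_ball_self one_pos
  have hd1 : 1 ≤ max a.natDegree b.natDegree := le_trans one_le_two h.deg
  have hval : ∀ c ∈ C, rat a b (c : OnePoint ℂ) = ((fp (rat a b (c : OnePoint ℂ)) : ℂ) : OnePoint ℂ) := fun c hc =>
    (coe_fp (hfin c hc)).symm
  -- the degrees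
  obtain ⟨L, hL⟩ := fin_max h.fin (P := fun c L => ∀ ε : ℝ, 0 < ε → ∃ r : ℝ, 0 < r ∧
      ∀ g : ℂ → ℂ, Un g → g 0 = fp (rat a b (c : OnePoint ℂ)) → (∀ w ∈ ball (0 : ℂ) 1, ‖g w - fp (rat a b (c : OnePoint ℂ))‖ < r) →
        ∃ (ψ : ℂ → ℂ) (l : ℕ), 2 ≤ l ∧ l ≤ L ∧ Un ψ ∧
        ψ 0 = c ∧ ∀ w ∈ ball (0 : ℂ) 1, ‖ψ w - c‖ < ε ∧ rat a b ((ψ w : ℂ) : OnePoint ℂ) = ((g (w ^ l) : ℂ) : OnePoint ℂ))
    (fun c hc => psi_ex h.cop hd1 h.inf (h.crt c hc) (hval c hc)) (fun c L L' hLL hP ε hε => by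
      obtain ⟨r, hr, h1⟩ := hP ε hε
      refine ⟨r, hr, fun g hg hg0 hgr => ?_⟩
      obtain ⟨ψ, l, h2, h3, h4⟩ := h1 g hg hg0 hgr
      exact ⟨ψ, l, h2, h3.trans hLL, h4⟩)
  refine ⟨L, fun ε0 hε0 => ?_⟩
  -- the radii
  obtain ⟨ε, hε, hε2⟩ := fin_min h.fin (P := fun c ε => ∀ g : ℂ → ℂ, Un g → g 0 = fp (rat a b (c : OnePoint ℂ)) →
      (∀ w ∈ ball (0 : ℂ) 1, chord (φ.symm ((g w : ℂ) : OnePoint ℂ)) (F (φ.symm (c : OnePoint ℂ))) < ε) →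
      (∀ w ∈ ball (0 : ℂ) 1, ‖g w - g 0‖ < ε0) ∧
        ∃ (ψ : ℂ → ℂ) (l : ℕ), 2 ≤ l ∧ l ≤ L ∧ Un ψ ∧
        ψ 0 = c ∧ ∀ w ∈ ball (0 : ℂ) 1, ‖ψ w - c‖ < ε0 ∧ rat a b ((ψ w : ℂ) : OnePoint ℂ) = ((g (w ^ l) : ℂ) : OnePoint ℂ))
    (fun c hc => by
      obtain ⟨r, hr, h1⟩ := hL c hc ε0 hε0
      have h2 : φ (F (φ.symm (c : OnePoint ℂ))) = ((fp (rat a b (c : OnePoint ℂ)) : ℂ) : OnePoint ℂ) := by
        rw [← conj, φ.apply_symm_apply]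
        exact hval c hc
      obtain ⟨ε, hε, h3⟩ := ch_small h2 (lt_min hr hε0)
      refine ⟨ε, hε, fun g hg hg0 hgc => ?_⟩
      have h4 : ∀ w ∈ ball (0 : ℂ) 1, ‖g w - fp (rat a b (c : OnePoint ℂ))‖ < min r ε0 := by
        intro w hw
        have h5 := (h3 _ (hgc w hw)).2
        rwa [φ.apply_symm_apply, fp_coe] at h5
      exact ⟨fun w hw => by rw [hg0]; exact (h4 w hw).trans_le (min_le_right _ _),
        h1 g hg hg0 fun w hw => (h4 w hw).trans_le (min_le_left _ _)⟩)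
    (fun c ε ε' hεε hP g hg hg0 hgc => hP g hg hg0 fun w hw => (hgc w hw).trans_le hεε)
  obtain ⟨ε', hε', hε2'⟩ := fin_min h.fin (P := fun c ε => ∀ x, chord x (F (φ.symm (c : OnePoint ℂ))) < ε → φ x ≠ OnePoint.infty)
    (fun c hc => by
      have h2 : φ (F (φ.symm (c : OnePoint ℂ))) = ((fp (rat a b (c : OnePoint ℂ)) : ℂ) : OnePoint ℂ) := by
        rw [← conj, φ.apply_symm_apply]
        exact hval c hc
      obtain ⟨ε, hε, h3⟩ := ch_small h2 one_pos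
      exact ⟨ε, hε, fun x hx => (h3 x hx).1⟩)
    (fun c ε ε' hεε hP x hx => hP x (hx.trans_le hεε))
  refine ⟨min ε ε', lt_min hε hε', fun Φ hΦ => ?_⟩
  -- the system in the chart
  obtain ⟨g, hg⟩ : ∃ g : ℂ → ℂ → ℂ, g = fun (c w : ℂ) => fp (φ (Φ (φ.symm (c : OnePoint ℂ)) w)) := ⟨_, rfl⟩
  have hgf : ∀ c ∈ C, ∀ w ∈ ball (0 : ℂ) 1, φ (Φ (φ.symm (c : OnePoint ℂ)) w) ≠ OnePoint.infty := by
    intro c hc w hw
    exact hε2' c hc _ (((hΦ _ (hC c hc)).2.2 w hw).trans_le (min_le_right _ _))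
  have hgφ : ∀ c ∈ C, ∀ w ∈ ball (0 : ℂ) 1, φ (Φ (φ.symm (c : OnePoint ℂ)) w) = ((g c w : ℂ) : OnePoint ℂ) := by
    intro c hc w hw
    rw [hg]
    exact (coe_fp (hgf c hc w hw)).symm
  have hgU : ∀ c ∈ C, Un (g c) := by
    intro c hc
    rw [hg]
    exact unv_ch hφ (hΦ _ (hC c hc)).1 (hgf c hc)
  have hg0 : ∀ c ∈ C, g c 0 = fp (rat a b (c : OnePoint ℂ)) := by
    intro c hc
    have h1 := hgφ c hc 0 h0
    rw [(hΦ _ (hC c hc)).2.1, ← conj, φ.apply_symm_apply] at h1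
    rw [h1, fp_coe]
  have hP : ∀ c ∈ C, (∀ w ∈ ball (0 : ℂ) 1, ‖g c w - g c 0‖ < ε0) ∧
        ∃ (ψ : ℂ → ℂ) (l : ℕ), 2 ≤ l ∧ l ≤ L ∧ Un ψ ∧
        ψ 0 = c ∧ ∀ w ∈ ball (0 : ℂ) 1, ‖ψ w - c‖ < ε0 ∧
          rat a b ((ψ w : ℂ) : OnePoint ℂ) = ((g c (w ^ l) : ℂ) : OnePoint ℂ) := by
    intro c hc
    refine hε2 c hc (g c) (hgU c hc) (hg0 c hc) fun w hw => ?_
    rw [← hgφ c hc w hw, φ.symm_apply_apply]
    exact ((hΦ _ (hC c hc)).2.2 w hw).trans_le (min_le_left _ _)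
  choose! hP1 ψ l hl2 hlL hψU hψ0 hψ using hP
  refine ⟨g, ψ, l, ⟨hgU, hP1, hψU, hψ0, fun c hc w hw => (hψ c hc w hw).1, hl2, hlL,
    fun c hc w hw => (hψ c hc w hw).2⟩, hgφ, fun c hc => ?_⟩
  exact vp_ch hf conj (le_trans one_le_two (hl2 c hc)) (hgU c hc) (hψU c hc) (hgφ c hc)
    (fun w hw => (hψ c hc w hw).2) (c := φ.symm (c : OnePoint ℂ)) (by rw [φ.apply_symm_apply, hψ0 c hc])

end Pool.Agent.H91.MM
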