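import Pool.Agent.H91.MM.SysC
import Pool.Agent.H32.BT.Top
import Pool.Agent.H3.UP.GUE

/-!
# THEOREM MN, M+, chart part: pull backs and critical times in a chart

`it_conj`, `cc_conj`, `ce_conj`: iterates, components of preimages and critical times under a conjugacy. `tgt`: a contraction property of one target on the sphere gives the one in the chart. `ch_unif`: small chordal discs near a compact set of the chart are small in the chart.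
-/

set_option autoImplicit false

open Filter Topology Metric Set

namespace Pool.Agent.H91.MM

open Pool.Agent.H44.Fatou (rat rat_continuous)
open Pool.Agent.H32.BT (IsCrit)
open Pool.Agent.H35.EX (chord chord_comm)
open Pool.Agent.H91.ATT (fp fp_coe Mb)
open Pool.Agent.H44.RC (CC)
open Pool.Agent.H3.UP (CE)

theorem it_conj {F F' : OnePoint ℂ → OnePoint ℂ} {φ : OnePoint ℂ ≃ₜ OnePoint ℂ} (conj : ∀ x, F' (φ x) = φ (F x))
    (m : ℕ) (x : OnePoint ℂ) : F'^[m] (φ x) = φ (F^[m] x) := by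
  induction m with
  | zero => rfl
  | succ m ih => rw [Function.iterate_succ_apply', Function.iterate_succ_apply', ih, conj]

theorem cc_conj {F F' : OnePoint ℂ → OnePoint ℂ} {φ : OnePoint ℂ ≃ₜ OnePoint ℂ} (conj : ∀ x, F' (φ x) = φ (F x))
    (m : ℕ) (V : Set (OnePoint ℂ)) (x : OnePoint ℂ) : φ '' CC F m V x = CC F' m (φ '' V) (φ x) := by
  have e1 : φ '' (F^[m] ⁻¹' V) = F'^[m] ⁻¹' (φ '' V) := by
    ext y
    constructor
    · rintro ⟨x, hx, rfl⟩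
      show F'^[m] (φ x) ∈ φ '' V
      rw [it_conj conj]
      exact ⟨_, hx, rfl⟩
    · intro hy
      refine ⟨φ.symm y, ?_, φ.apply_symm_apply y⟩
      obtain ⟨z, hz, hzy⟩ := hy
      show F^[m] (φ.symm y) ∈ V
      have h1 : φ z = φ (F^[m] (φ.symm y)) := by
        rw [hzy, ← it_conj conj, φ.apply_symm_apply]
      rwa [← φ.injective h1]
  unfold CC
  by_cases hx : x ∈ F^[m] ⁻¹' V
  · rw [φ.image_connectedComponentIn hx, e1]
  · have hx' : φ x ∉ F'^[m] ⁻¹' (φ '' V) := by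
      rw [← e1]
      rintro ⟨y, hy, hyx⟩
      exact hx (φ.injective hyx ▸ hy)
    rw [connectedComponentIn_eq_empty hx, connectedComponentIn_eq_empty hx', image_empty]

theorem ce_conj {F F' : OnePoint ℂ → OnePoint ℂ} {φ : OnePoint ℂ ≃ₜ OnePoint ℂ} (conj : ∀ x, F' (φ x) = φ (F x))
    (V : Set (OnePoint ℂ)) (x : OnePoint ℂ) (n : ℕ) : CE F V x n = CE F' (φ '' V) (φ x) n := by
  ext k
  constructor
  · rintro ⟨hk, c, hc, hcc⟩
    refine ⟨hk, φ c, (Pool.Agent.H32.BT.isCrit_conj φ conj c).2 hc, ?_⟩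
    rw [it_conj conj, ← cc_conj conj]
    exact ⟨c, hcc, rfl⟩
  · rintro ⟨hk, c', hc', hcc'⟩
    rw [it_conj conj, ← cc_conj conj] at hcc'
    obtain ⟨c, hcc, rfl⟩ := hcc'
    exact ⟨hk, c, (Pool.Agent.H32.BT.isCrit_conj φ conj c).1 hc', hcc⟩

/-- one target -/
theorem tgt {F F' : OnePoint ℂ → OnePoint ℂ} {φ : OnePoint ℂ ≃ₜ OnePoint ℂ} (conj : ∀ x, F' (φ x) = φ (F x)) {C : Set ℂ}
    {S : Set (OnePoint ℂ)} (hC : ∀ c ∈ C, φ.symm (c : OnePoint ℂ) ∈ S) (hS : ∀ q ∈ S, ∃ c ∈ C, φ q = (c : OnePoint ℂ))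
    {Φ : OnePoint ℂ → ℂ → OnePoint ℂ} {g : ℂ → ℂ → ℂ}
    (hg : ∀ c ∈ C, ∀ w ∈ ball (0 : ℂ) 1, φ (Φ (φ.symm (c : OnePoint ℂ)) w) = ((g c w : ℂ) : OnePoint ℂ)) {k : ℝ} (hk : k < 1)
    {N : ℕ} {E D : Set (OnePoint ℂ)} (hE : φ '' E = D)
    (hcs : ∀ c ∈ S, ∀ n : ℕ, F^[n] c ∈ E → N ≤ (CE F E c n).ncard → ∃ j < n, ∃ q ∈ S, q ∈ CC F (n - j) E (F^[j] c) ∧
      ∀ z ∈ CC F (n - j) E (F^[j] c), F z ∈ Φ q '' ball 0 k) :
    ∀ b' ∈ C, ∀ n : ℕ, F'^[n] ((b' : ℂ) : OnePoint ℂ) ∈ D → N ≤ (CE F' D ((b' : ℂ) : OnePoint ℂ) n).ncard →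
      ∃ j < n, ∃ q ∈ C, ((q : ℂ) : OnePoint ℂ) ∈ CC F' (n - j) D (F'^[j] ((b' : ℂ) : OnePoint ℂ)) ∧
      ∀ z ∈ CC F' (n - j) D (F'^[j] ((b' : ℂ) : OnePoint ℂ)), ∃ w : ℂ, ‖w‖ < k ∧ F' z = ((g q w : ℂ) : OnePoint ℂ) := by
  intro b' hb' n hn hN
  have hbs : ((b' : ℂ) : OnePoint ℂ) = φ (φ.symm (b' : OnePoint ℂ)) := (φ.apply_symm_apply _).symm
  have h1 : F^[n] (φ.symm (b' : OnePoint ℂ)) ∈ E := by
    rw [← hE, hbs, it_conj conj] at hn
    obtain ⟨z, hz, hzy⟩ := hn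
    rwa [← φ.injective hzy]
  have h2 : N ≤ (CE F E (φ.symm (b' : OnePoint ℂ)) n).ncard := by
    rw [ce_conj conj, hE, ← hbs]
    exact hN
  obtain ⟨j, hj, q, hq, hq1, hq2⟩ := hcs _ (hC b' hb') n h1 h2
  obtain ⟨q', hq', hqq⟩ := hS q hq
  have hcc : CC F' (n - j) D (F'^[j] ((b' : ℂ) : OnePoint ℂ)) = φ '' CC F (n - j) E (F^[j] (φ.symm (b' : OnePoint ℂ))) := by
    rw [cc_conj conj, hE, ← it_conj conj, ← hbs]
  refine ⟨j, hj, q', hq', ?_, fun z hz => ?_⟩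
  · rw [hcc, ← hqq]
    exact ⟨q, hq1, rfl⟩
  · rw [hcc] at hz
    obtain ⟨z0, hz0, rfl⟩ := hz
    obtain ⟨u, hu, hu2⟩ := hq2 z0 hz0
    rw [mem_ball_zero_iff] at hu
    refine ⟨u, hu, ?_⟩
    have h3 := hg q' hq' u (mem_ball_zero_iff.2 (hu.trans hk))
    rw [← hqq, φ.symm_apply_apply, hu2] at h3
    rw [conj, h3]

/-- small chordal discs near a compact set of the chart -/
theorem ch_unif (φ : OnePoint ℂ ≃ₜ OnePoint ℂ) {M : Set ℂ} (hM : IsCompact M) {r : ℝ} (hr : 0 < r) :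
    ∃ ε : ℝ, 0 < ε ∧ ∀ y ∈ M, ∀ x, chord x (φ.symm (y : OnePoint ℂ)) < ε → φ x ≠ OnePoint.infty ∧ ‖fp (φ x) - y‖ < r := by
  refine hM.induction_on (p := fun s => ∃ ε : ℝ, 0 < ε ∧ ∀ y ∈ s, ∀ x, chord x (φ.symm (y : OnePoint ℂ)) < ε →
    φ x ≠ OnePoint.infty ∧ ‖fp (φ x) - y‖ < r) ?_ ?_ ?_ ?_
  · exact ⟨1, one_pos, fun y hy => absurd hy (notMem_empty y)⟩
  · rintro s t hst ⟨ε, hε, h⟩
    exact ⟨ε, hε, fun y hy => h y (hst hy)⟩
  · rintro s t ⟨ε1, hε1, h1⟩ ⟨ε2, hε2, h2⟩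
    refine ⟨min ε1 ε2, lt_min hε1 hε2, fun y hy x hx => ?_⟩
    rcases hy with hy | hy
    · exact h1 y hy x (hx.trans_le (min_le_left _ _))
    · exact h2 y hy x (hx.trans_le (min_le_right _ _))
  · intro y _
    obtain ⟨ε, hε, h⟩ := ch_small (φ := φ) (p := φ.symm (y : OnePoint ℂ)) (z := y) (φ.apply_symm_apply _) (half_pos hr)
    have h1 : ∀ᶠ z : ℂ in 𝓝 y, chord (φ.symm (z : OnePoint ℂ)) (φ.symm (y : OnePoint ℂ)) < ε / 2 := by
      have h2 : Continuous fun z : ℂ => chord (φ.symm (y : OnePoint ℂ)) (φ.symm (z : OnePoint ℂ)) :=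
        (Pool.Agent.H44.RC.ch_contl _).comp (φ.symm.continuous.comp OnePoint.continuous_coe)
      have h3 : (fun z : ℂ => chord (φ.symm (y : OnePoint ℂ)) (φ.symm (z : OnePoint ℂ))) y < ε / 2 := by
        show chord (φ.symm (y : OnePoint ℂ)) (φ.symm (y : OnePoint ℂ)) < ε / 2
        rw [Pool.Agent.H44.RR.chord_zero]
        exact half_pos hε
      filter_upwards [h2.continuousAt.eventually_lt continuousAt_const h3] with z hz
      rwa [chord_comm]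
    have h4 : ∀ᶠ z : ℂ in 𝓝 y, ‖z - y‖ < r / 2 := by
      filter_upwards [ball_mem_nhds y (half_pos hr)] with z hz
      rwa [← dist_eq_norm]
    refine ⟨{z | chord (φ.symm (z : OnePoint ℂ)) (φ.symm (y : OnePoint ℂ)) < ε / 2 ∧ ‖z - y‖ < r / 2},
      mem_nhdsWithin_of_mem_nhds (h1.and h4), ε / 2, half_pos hε, fun z hz x hx => ?_⟩
    have h5 : chord x (φ.symm (y : OnePoint ℂ)) < ε := by
      have := Pool.Agent.H44.RC.ch_tri x (φ.symm (z : OnePoint ℂ)) (φ.symm (y : OnePoint ℂ))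
      linarith [hz.1]
    obtain ⟨h6, h7⟩ := h x h5
    refine ⟨h6, ?_⟩
    calc ‖fp (φ x) - z‖ = ‖(fp (φ x) - y) - (z - y)‖ := by congr 1; ring
      _ ≤ ‖fp (φ x) - y‖ + ‖z - y‖ := norm_sub_le _ _
      _ < r := by linarith [hz.2]

end Pool.Agent.H91.MM
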