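import Pool.Agent.H47.MM.Lift
import Pool.Agent.H56.MM.Defs
import Pool.Agent.H80.AJ.Distort
import Pool.Agent.H64.NC.PRT

/-!
# THEOREM M, chart part: univalent maps into the sphere in a Moebius chart, critical neighbourhoods

`un_open`: univalent functions are open. `hol_ch`, `unv_ch`: in a Moebius chart a univalent map into the sphere whose values are finite is a univalent function. `comp_eq`: if `f (ψ w) = g (w ^ l)` on the unit disc, `ψ`, `g` univalent, then the component at `ψ 0` of the preimage of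
`g '' ball 0 1` is `ψ '' ball 0 1`. `vp_ch`: the same for `Vp` through a chart. `psi_ex`: the pull back `ψ` exists for small `g` at a critical point.
-/

set_option autoImplicit false

open Filter Topology Polynomial Metric Set

namespace Pool.Agent.H91.MM

open Pool.Agent.H44.Fatou (rat rat_continuous)
open Pool.Agent.H32.BT (IsCrit)
open Pool.Agent.H91.ATT (fp fp_coe Mb prj prj_one prj_ne prj_zero)
open Pool.Agent.H47.MM (Un Me)
open Pool.Agent.H56.MM (HolAt Unv Vp)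

theorem un_deriv {G : ℂ → ℂ} (h : Un G) {w : ℂ} (hw : w ∈ ball (0 : ℂ) 1) : deriv G w ≠ 0 := by
  rw [mem_ball_zero_iff] at hw
  have h1 : ball w (1 - ‖w‖) ⊆ ball 0 1 := by
    intro z hz
    rw [mem_ball, dist_eq_norm] at hz
    rw [mem_ball_zero_iff]
    calc ‖z‖ = ‖(z - w) + w‖ := by rw [sub_add_cancel]
      _ ≤ ‖z - w‖ + ‖w‖ := norm_add_le _ _
      _ < 1 := by linarith
  exact norm_pos_iff.1 (Pool.Agent.H80.AJ.deriv_ne (by linarith) (h.1.mono h1) (h.2.mono h1)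
    (mem_closedBall_self (by linarith)))

theorem un_open {G : ℂ → ℂ} (h : Un G) {O : Set ℂ} (hO : O ⊆ ball 0 1) (ho : IsOpen O) : IsOpen (G '' O) := by
  rw [isOpen_iff_mem_nhds]
  rintro _ ⟨w, hw, rfl⟩
  have h1 : HasStrictDerivAt G (deriv G w) w :=
    (h.1.analyticAt (isOpen_ball.mem_nhds (hO hw))).hasStrictDerivAt
  rw [← h1.map_nhds_eq (un_deriv h (hO hw))]
  exact image_mem_map (ho.mem_nhds hw)

theorem hol_ch {φ : OnePoint ℂ ≃ₜ OnePoint ℂ} (hφ : Mb φ) {ψ : ℂ → OnePoint ℂ} {u : ℂ} (h : HolAt ψ u)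
    (hfin : φ (ψ u) ≠ OnePoint.infty) : DifferentiableAt ℂ (fun w => fp (φ (ψ w))) u := by
  obtain ⟨a, b, c, e, hD, hφ⟩ := hφ
  obtain ⟨g, hg, hc⟩ := h
  rcases hc with hc | hc
  · have h1 : ∀ᶠ w in 𝓝 u, φ (ψ w) = prj (a * g w + b) (c * g w + e) := by
      filter_upwards [hc] with w hw
      have h2 := hφ (g w) 1 (Or.inr one_ne_zero)
      rw [prj_one, mul_one, mul_one] at h2
      rw [hw, h2]
    have h3 : c * g u + e ≠ 0 := by
      intro h4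
      apply hfin
      rw [h1.self_of_nhds, h4, prj_zero]
    have h5 : ∀ᶠ w in 𝓝 u, c * g w + e ≠ 0 :=
      ((hg.continuousAt.const_mul c).add_const e).eventually_ne h3
    have h6 : (fun w => fp (φ (ψ w))) =ᶠ[𝓝 u] fun w => (a * g w + b) / (c * g w + e) := by
      filter_upwards [h1, h5] with w hw hw2
      rw [hw, prj_ne hw2, fp_coe]
    refine (DifferentiableAt.congr_of_eventuallyEq ?_ h6)
    exact ((hg.differentiableAt.const_mul a).add_const b).div ((hg.differentiableAt.const_mul c).add_const e) h3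
  · have h1 : ∀ᶠ w in 𝓝 u, φ (ψ w) = prj (a + b * g w) (c + e * g w) := by
      filter_upwards [hc] with w hw
      have h2 := hφ 1 (g w) (Or.inl one_ne_zero)
      rw [mul_one, mul_one] at h2
      rw [← h2]
      congr 1
      by_cases h0 : g w = 0
      · rw [hw.1 h0, h0, prj_zero]
      · rw [hw.2 h0, prj_ne h0, one_div]
    have h3 : c + e * g u ≠ 0 := by
      intro h4
      apply hfin
      rw [h1.self_of_nhds, h4, prj_zero]
    have h5 : ∀ᶠ w in 𝓝 u, c + e * g w ≠ 0 :=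
      ((hg.continuousAt.const_mul e).const_add c).eventually_ne h3
    have h6 : (fun w => fp (φ (ψ w))) =ᶠ[𝓝 u] fun w => (a + b * g w) / (c + e * g w) := by
      filter_upwards [h1, h5] with w hw hw2
      rw [hw, prj_ne hw2, fp_coe]
    refine (DifferentiableAt.congr_of_eventuallyEq ?_ h6)
    exact ((hg.differentiableAt.const_mul b).const_add a).div ((hg.differentiableAt.const_mul e).const_add c) h3

theorem coe_fp {x : OnePoint ℂ} (h : x ≠ OnePoint.infty) : ((fp x : ℂ) : OnePoint ℂ) = x := by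
  obtain ⟨z, rfl⟩ := OnePoint.ne_infty_iff_exists.1 h
  rw [fp_coe]

theorem unv_ch {φ : OnePoint ℂ ≃ₜ OnePoint ℂ} (hφ : Mb φ) {ψ : ℂ → OnePoint ℂ} (h : Unv ψ)
    (hfin : ∀ u ∈ ball (0 : ℂ) 1, φ (ψ u) ≠ OnePoint.infty) : Un (fun w => fp (φ (ψ w))) := by
  refine ⟨fun u hu => (hol_ch hφ (h.2 u hu) (hfin u hu)).differentiableWithinAt, fun w hw w' hw' hww => ?_⟩
  have h1 : φ (ψ w) = φ (ψ w') := by
    rw [← coe_fp (hfin w hw), ← coe_fp (hfin w' hw')]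
    exact congrArg _ hww
  exact h.1 hw hw' (φ.injective h1)

/-- the component -/
theorem comp_eq {f : OnePoint ℂ → OnePoint ℂ} (hf : Continuous f) {g ψ : ℂ → ℂ} {l : ℕ} (hl : 1 ≤ l) (hg : Un g) (hψ : Un ψ)
    (h : ∀ w ∈ ball (0 : ℂ) 1, f ((ψ w : ℂ) : OnePoint ℂ) = ((g (w ^ l) : ℂ) : OnePoint ℂ)) :
    connectedComponentIn (f ⁻¹' ((fun w : ℂ => ((g w : ℂ) : OnePoint ℂ)) '' ball 0 1)) ((ψ 0 : ℂ) : OnePoint ℂ) =
      (fun w : ℂ => ((ψ w : ℂ) : OnePoint ℂ)) '' ball 0 1 := by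
  have h0 : (0 : ℂ) ∈ ball (0 : ℂ) 1 := mem_ball_self one_pos
  have hpw : ∀ w ∈ ball (0 : ℂ) 1, w ^ l ∈ ball (0 : ℂ) 1 := by
    intro w hw
    rw [mem_ball_zero_iff] at hw ⊢
    rw [norm_pow]
    exact pow_lt_one₀ (norm_nonneg _) hw (by omega)
  obtain ⟨D, hD⟩ : ∃ D, D = (fun w : ℂ => ((g w : ℂ) : OnePoint ℂ)) '' ball 0 1 := ⟨_, rfl⟩
  obtain ⟨V, hV⟩ : ∃ V, V = (fun w : ℂ => ((ψ w : ℂ) : OnePoint ℂ)) '' ball 0 1 := ⟨_, rfl⟩
  have hVo : IsOpen V := by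
    rw [hV, ← image_image (fun z : ℂ => (z : OnePoint ℂ)) ψ]
    exact OnePoint.isOpenEmbedding_coe.isOpenMap _ (un_open hψ (Subset.refl _) isOpen_ball)
  have hVc : IsPreconnected V := by
    rw [hV]
    refine (convex_ball (0 : ℂ) 1).isPreconnected.image _ ?_
    exact OnePoint.continuous_coe.comp_continuousOn hψ.1.continuousOn
  have hVD : V ⊆ f ⁻¹' D := by
    rw [hV, hD]
    rintro _ ⟨w, hw, rfl⟩
    exact ⟨w ^ l, hpw w hw, (h w hw).symm⟩
  have h0V : ((ψ 0 : ℂ) : OnePoint ℂ) ∈ V := by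
    rw [hV]
    exact ⟨0, h0, rfl⟩
  rw [← hD, ← hV]
  refine Subset.antisymm ?_ (hVc.subset_connectedComponentIn h0V hVD)
  -- the other points of the preimage are not in the closure
  have hcl : ∀ x ∈ f ⁻¹' D, x ∈ closure V → x ∈ V := by
    intro x hx hxV
    rw [hD] at hx
    obtain ⟨u, hu, hux⟩ := hx
    have hux' : ((g u : ℂ) : OnePoint ℂ) = f x := hux
    rw [mem_ball_zero_iff] at hu
    obtain ⟨r, hr1, hr2⟩ := exists_between hu
    have hr0 : 0 < r := (norm_nonneg u).trans_lt hr1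
    have hO : IsOpen (f ⁻¹' ((fun z : ℂ => (z : OnePoint ℂ)) '' (g '' ball 0 r))) :=
      (OnePoint.isOpenEmbedding_coe.isOpenMap _ (un_open hg (ball_subset_ball hr2.le) isOpen_ball)).preimage hf
    have hxO : x ∈ f ⁻¹' ((fun z : ℂ => (z : OnePoint ℂ)) '' (g '' ball 0 r)) :=
      ⟨g u, ⟨u, mem_ball_zero_iff.2 hr1, rfl⟩, hux'⟩
    -- the part of `V` over the smaller disc
    obtain ⟨q, hq1, hq2, hq3⟩ : ∃ q : ℝ, q < 1 ∧ 0 ≤ q ∧ ∀ w : ℂ, ‖w‖ ^ l < r → ‖w‖ ≤ q := by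
      refine ⟨r ^ ((1 : ℝ) / l), Real.rpow_lt_one hr0.le hr2 (by positivity), Real.rpow_nonneg hr0.le _, fun w hw => ?_⟩
      have h1 : ‖w‖ = (‖w‖ ^ l) ^ ((1 : ℝ) / l) := by
        rw [← Real.rpow_natCast, ← Real.rpow_mul (norm_nonneg _), mul_one_div_cancel (by positivity), Real.rpow_one]
      rw [h1]
      exact Real.rpow_le_rpow (by positivity) hw.le (by positivity)
    have hK : IsClosed ((fun w : ℂ => ((ψ w : ℂ) : OnePoint ℂ)) '' closedBall 0 q) := by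
      have h1 : closedBall (0 : ℂ) q ⊆ ball 0 1 := closedBall_subset_ball hq1
      exact ((isCompact_closedBall (0 : ℂ) q).image_of_continuousOn
        (OnePoint.continuous_coe.comp_continuousOn (hψ.1.continuousOn.mono h1))).isClosed
    have hVK : V ∩ f ⁻¹' ((fun z : ℂ => (z : OnePoint ℂ)) '' (g '' ball 0 r)) ⊆
        (fun w : ℂ => ((ψ w : ℂ) : OnePoint ℂ)) '' closedBall 0 q := by
      rw [hV]
      rintro _ ⟨⟨w, hw, rfl⟩, ⟨_, ⟨w', hw', rfl⟩, h2⟩⟩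
      have h3 : ((g w' : ℂ) : OnePoint ℂ) = ((g (w ^ l) : ℂ) : OnePoint ℂ) := h2.trans (h w hw)
      have h4 : w' = w ^ l := hg.2 (ball_subset_ball hr2.le hw') (hpw w hw) (OnePoint.coe_injective h3)
      refine ⟨w, ?_, rfl⟩
      rw [mem_closedBall_zero_iff]
      apply hq3
      rw [← norm_pow, ← h4]
      exact mem_ball_zero_iff.1 hw'
    have h5 : x ∈ closure (V ∩ f ⁻¹' ((fun z : ℂ => (z : OnePoint ℂ)) '' (g '' ball 0 r))) := by
      rw [inter_comm]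
      exact hO.inter_closure ⟨hxO, hxV⟩
    have h6 := closure_minimal hVK hK h5
    obtain ⟨w, hw, hwx⟩ := h6
    rw [hV]
    exact ⟨w, closedBall_subset_ball hq1 hw, hwx⟩
  intro x hx
  have h7 : IsPreconnected (connectedComponentIn (f ⁻¹' D) ((ψ 0 : ℂ) : OnePoint ℂ)) := isPreconnected_connectedComponentIn
  have h8 : connectedComponentIn (f ⁻¹' D) ((ψ 0 : ℂ) : OnePoint ℂ) ⊆ V ∪ (closure V)ᶜ := by
    intro y hy
    by_cases hy2 : y ∈ closure V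
    · exact Or.inl (hcl y (connectedComponentIn_subset _ _ hy) hy2)
    · exact Or.inr hy2
  have h9 := h7.subset_left_of_subset_union hVo isClosed_closure.isOpen_compl
    (disjoint_left.2 fun y hy hy2 => hy2 (subset_closure hy)) h8
    ⟨_, mem_connectedComponentIn (hVD h0V), h0V⟩
  exact h9 hx

/-- the critical neighbourhood in a chart -/
theorem vp_ch {F F' : OnePoint ℂ → OnePoint ℂ} (hF' : Continuous F') {φ : OnePoint ℂ ≃ₜ OnePoint ℂ} (conj : ∀ x, F' (φ x) = φ (F x))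
    {Φ : ℂ → OnePoint ℂ} {g ψ : ℂ → ℂ} {l : ℕ} (hl : 1 ≤ l) (hg : Un g) (hψ : Un ψ)
    (hΦ : ∀ w ∈ ball (0 : ℂ) 1, φ (Φ w) = ((g w : ℂ) : OnePoint ℂ))
    (h : ∀ w ∈ ball (0 : ℂ) 1, F' ((ψ w : ℂ) : OnePoint ℂ) = ((g (w ^ l) : ℂ) : OnePoint ℂ)) {c : OnePoint ℂ}
    (hc : φ c = ((ψ 0 : ℂ) : OnePoint ℂ)) :
    φ '' Vp F Φ c = (fun w : ℂ => ((ψ w : ℂ) : OnePoint ℂ)) '' ball 0 1 := by
  have h0 : (0 : ℂ) ∈ ball (0 : ℂ) 1 := mem_ball_self one_pos
  have e1 : φ '' (F ⁻¹' (Φ '' ball 0 1)) = F' ⁻¹' ((fun w : ℂ => ((g w : ℂ) : OnePoint ℂ)) '' ball 0 1) := by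
    ext y
    constructor
    · rintro ⟨x, ⟨w, hw, hwx⟩, rfl⟩
      refine ⟨w, hw, ?_⟩
      show ((g w : ℂ) : OnePoint ℂ) = F' (φ x)
      rw [conj, ← hwx, hΦ w hw]
    · rintro ⟨w, hw, hwy⟩
      have hwy' : ((g w : ℂ) : OnePoint ℂ) = F' y := hwy
      refine ⟨φ.symm y, ⟨w, hw, ?_⟩, φ.apply_symm_apply y⟩
      apply φ.injective
      rw [hΦ w hw, hwy', ← conj, φ.apply_symm_apply]
  have h1 : c ∈ F ⁻¹' (Φ '' ball 0 1) := by
    have h2 : φ c ∈ φ '' (F ⁻¹' (Φ '' ball 0 1)) := by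
      rw [e1, hc]
      refine ⟨0 ^ l, ?_, (h 0 h0).symm⟩
      rw [zero_pow (by omega)]
      exact h0
    obtain ⟨x, hx, hxc⟩ := h2
    rwa [← φ.injective hxc]
  unfold Vp
  rw [φ.image_connectedComponentIn h1, e1, hc]
  exact comp_eq hF' hl hg hψ h

/-- the pull back at a critical point -/
theorem psi_ex {a b : Polynomial ℂ} (hcop : IsCoprime a b) (hd : 1 ≤ max a.natDegree b.natDegree)
    (hfi : rat a b OnePoint.infty = OnePoint.infty) {c v : ℂ} (hc : IsCrit (rat a b) (c : OnePoint ℂ))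
    (hv : rat a b (c : OnePoint ℂ) = (v : OnePoint ℂ)) : ∃ L : ℕ, ∀ ε : ℝ, 0 < ε → ∃ r : ℝ, 0 < r ∧
      ∀ g : ℂ → ℂ, Un g → g 0 = v → (∀ w ∈ ball (0 : ℂ) 1, ‖g w - v‖ < r) → ∃ (ψ : ℂ → ℂ) (l : ℕ), 2 ≤ l ∧ l ≤ L ∧ Un ψ ∧
        ψ 0 = c ∧ ∀ w ∈ ball (0 : ℂ) 1, ‖ψ w - c‖ < ε ∧ rat a b ((ψ w : ℂ) : OnePoint ℂ) = ((g (w ^ l) : ℂ) : OnePoint ℂ) := by
  obtain ⟨L, hL⟩ := Pool.Agent.H47.MM.lift hcop hd hfi v
  refine ⟨L, fun ε hε => ?_⟩
  obtain ⟨r, hr, h⟩ := hL ε hε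
  refine ⟨r, hr, fun g hg hg0 hgr => ?_⟩
  have h0 : (0 : ℂ) ∈ ball (0 : ℂ) 1 := mem_ball_self one_pos
  rcases h g hg hgr c 0 h0 (by rw [hv, hg0]) with h1 | h1
  · exfalso
    obtain ⟨S1, hS1, hS2, hS3⟩ := h1
    apply hc
    refine ⟨(fun z : ℂ => (z : OnePoint ℂ)) '' (S1 '' ball 0 1), ?_, ?_⟩
    · refine (OnePoint.isOpenEmbedding_coe.isOpenMap _ (un_open hS1 (Subset.refl _) isOpen_ball)).mem_nhds ?_
      exact ⟨c, ⟨0, h0, hS3⟩, rfl⟩
    · rintro _ ⟨_, ⟨w, hw, rfl⟩, rfl⟩ _ ⟨_, ⟨w', hw', rfl⟩, rfl⟩ heq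
      have h2 : ((g w : ℂ) : OnePoint ℂ) = ((g w' : ℂ) : OnePoint ℂ) := by
        rw [← hS2 w hw, ← hS2 w' hw']
        exact heq
      rw [hg.2 hw hw' (OnePoint.coe_injective h2)]
  · obtain ⟨b', e, w1, n, χ, -, -, he, hge, hn, hnL, hχ, hχ0, hχ1, hw1, hMe, hχw⟩ := h1
    have he0 : e = 0 := hg.2 he h0 (hge.trans hg0.symm)
    subst he0
    have hM0 : ∀ z : ℂ, Me 0 z = z := by
      intro z
      unfold Me
      rw [map_zero, zero_mul, add_zero, add_zero, div_one]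
    have hw10 : w1 = 0 := by
      rw [hM0] at hMe
      exact pow_eq_zero_iff (by omega) |>.1 hMe
    have hbc : b' = c := by rw [← hχ0, ← hχw, hw10]
    subst hbc
    refine ⟨χ, n, hn, hnL, hχ, hχ0, fun w hw => ?_⟩
    have h3 := hχ1 w hw
    rw [hM0] at h3
    exact h3

end Pool.Agent.H91.MM
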